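import Pool.Agent.Hhelper96.BRW.Example

/-!
# A quasi-transitive branching random walk without local survival whose generating function has
uncountably many fixed points that are not extinction probability vectors

On `ℤ`, a particle at `x` is replaced by two particles at `x + 1` with probability `28/31` and by one
particle at `x - 1` with probability `3/31`.
-/

set_option autoImplicit false

open Pool.Agent.Hhelper96.BRW

namespace Pool.Agent.Results.MP_c15531_pr.UncountableFixedPoints

/-- There is a branching random walk on `ℤ` that is irreducible, quasi-transitive and almost surely
goes extinct in every single site, for which the set `E_G` of extinction probability vectors is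
finite and the set `F_G \ E_G` of the other fixed points of `G` is uncountable. -/
theorem result : ∃ μ : ℤ → PMF (ℤ →₀ ℕ), InClassC μ ∧ (extinctionVectors μ).Finite ∧
    ¬ (fixedPoints μ \ extinctionVectors μ).Countable :=
  ⟨mu0, inClassC_mu0, extinctionVectors_finite, not_countable⟩

end Pool.Agent.Results.MP_c15531_pr.UncountableFixedPoints
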